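import Pool.Agent.R70.KG.Final

set_option autoImplicit false

/-!
# When is `g(K_3, n) = e_1(n)`?

For `n ≥ 2` the largest number of edges of a connected `K_3`-good graph on `n` vertices equals
`e_1(n)` exactly when `n ≤ 3`.
-/

namespace Pool.Agent.Results.MP_0fcc2a_co.EqualityE1

open Pool.Agent.R70.KG

/-- `g(K_3, n) = e_1(n)` holds exactly for `n = 2` and `n = 3`. -/
theorem result : ∀ n : ℕ, 2 ≤ n → (gK3 n = e1 n ↔ n ≤ 3) :=
  fun _ hn => g_eq_e1_iff hn

end Pool.Agent.Results.MP_0fcc2a_co.EqualityE1
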